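import Mathlib
import Pool.Agent.Lib.MP_2b959d_co.Final

set_option autoImplicit false

/-!
# Permanents of the powers of doubly stochastic matrices

For every order `n` there is a number `K` such that `per (A ^ k) ≤ per A` holds for all `k ≥ K` and
all doubly stochastic matrices `A` of order `n`.  In particular Foregger's conjecture holds.
-/

namespace Pool.Agent.Results.MP_2b959d_co.AllLargePowers

/-- The permanent of a real square matrix: the sum over all permutations `σ` of the products of the
entries `A i (σ i)`. -/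
def per {n : ℕ} (A : Matrix (Fin n) (Fin n) ℝ) : ℝ :=
  ∑ σ : Equiv.Perm (Fin n), ∏ i : Fin n, A i (σ i)

/-- A doubly stochastic matrix: the entries are nonnegative and each row and each column has
sum `1`. -/
def IsDoublyStochastic {n : ℕ} (A : Matrix (Fin n) (Fin n) ℝ) : Prop :=
  (∀ i j, 0 ≤ A i j) ∧ (∀ i, ∑ j, A i j = 1) ∧ (∀ j, ∑ i, A i j = 1)

theorem per_eq {n : ℕ} (A : Matrix (Fin n) (Fin n) ℝ) : per A = A.permanent := by
  rw [← Matrix.permanent_transpose]
  rfl

theorem mem_iff {n : ℕ} (A : Matrix (Fin n) (Fin n) ℝ) (h : IsDoublyStochastic A) :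
    A ∈ doublyStochastic ℝ (Fin n) := by
  rw [mem_doublyStochastic_iff_sum]
  exact h

/-- For every `n` there is a number `K` (depending only on `n`) such that for all `k ≥ K` and all
doubly stochastic matrices `A` of order `n` one has `per (A ^ k) ≤ per A`; in particular there is
such an exponent `k ≥ 2`. -/
theorem result (n : ℕ) :
    (∃ K : ℕ, ∀ k : ℕ, K ≤ k → ∀ A : Matrix (Fin n) (Fin n) ℝ, IsDoublyStochastic A →
      per (A ^ k) ≤ per A) ∧
    (∃ k : ℕ, 2 ≤ k ∧ ∀ A : Matrix (Fin n) (Fin n) ℝ, IsDoublyStochastic A →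
      per (A ^ k) ≤ per A) := by
  have key : ∃ K : ℕ, ∀ k : ℕ, K ≤ k → ∀ A : Matrix (Fin n) (Fin n) ℝ, IsDoublyStochastic A →
      per (A ^ k) ≤ per A := by
    rcases Nat.eq_zero_or_pos n with rfl | hn
    · refine ⟨0, fun k _ A _ => ?_⟩
      have h : A ^ k = A := Subsingleton.elim _ _
      rw [h]
    · have : NeZero n := ⟨by omega⟩
      obtain ⟨K, hK⟩ := Pool.Agent.Lib.MP_2b959d_co.foregger_strong (n := n)
      refine ⟨K, fun k hk A hA => ?_⟩
      rw [per_eq, per_eq]
      exact hK k hk A (mem_iff A hA)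
  refine ⟨key, ?_⟩
  obtain ⟨K, hK⟩ := key
  exact ⟨max K 2, le_max_right _ _, fun A hA => hK _ (le_max_left _ _) A hA⟩

end Pool.Agent.Results.MP_2b959d_co.AllLargePowers
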